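import Pool.Agent.helper73.NH.Spec
import Pool.Agent.helper79.SHL.STP

/-! Row FLG of helper73's plan NH (MP_a2a22c_al): composition factors of a solvable linear group. -/

set_option autoImplicit false

namespace Pool.Agent.NH

open Matrix Module Pool.Agent.PR Pool.Agent.SHL

theorem FLG_map {G G' : Type} [Group G] [Group G'] (φ : G →* G') (hφ : Function.Injective φ)
    (N : ℕ) : ∀ H : Subgroup G, Hi N H → Hi N (H.map φ) := by
  induction N with
  | zero => exact fun _ _ => trivial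
  | succ N ih =>
    rintro H ⟨K, L, hKL, hLH, hn, ⟨g, hg, hgk⟩, hK⟩
    refine ⟨K.map φ, L.map φ, Subgroup.map_mono hKL, Subgroup.map_mono hLH, ?_, ?_, ih K hK⟩
    · rintro _ ⟨l, hl, rfl⟩ _ ⟨k, hk, rfl⟩
      refine ⟨l * k * l⁻¹, hn l hl k hk, ?_⟩
      rw [map_mul, map_mul, map_inv]
    · refine ⟨φ g, ⟨g, hg, rfl⟩, ?_⟩
      rintro j hj ⟨k, hk, hkg⟩
      apply hgk j hj
      have h1 : k = g ^ j := hφ (by rw [hkg, map_pow])
      rw [← h1]
      exact hk

theorem FLG_aux (hHA : HA_stmt) (hHB : HB_stmt) (hSTR : STR_stmt) (hTOR : TOR_stmt) (n : ℕ) :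
    ∀ (V : Type) [AddCommGroup V] [Module ℚ V] [FiniteDimensional ℚ V] [Nontrivial V] (Q : Type)
    [Group Q], finrank ℚ V = n → Group.IsSolvable Q → ∀ ρ : Q →* Module.End ℚ V,
    (∀ g, IsIntegral ℤ (ρ g)) → ∀ N : ℕ, Hi N (⊤ : Subgroup Q) →
    ∃ (U : Subgroup Q) (a b k : ℕ) (L M : Submodule ℚ V), (∀ u ∈ U, IsNilpotent (ρ u - 1)) ∧
      (∀ u ∈ U, ∀ w ∈ L, ρ u w = w) ∧ (∀ u ∈ U, ∀ v, ρ u v - v ∈ M) ∧ L ≠ ⊥ ∧ M ≠ ⊤ ∧ Hi a U ∧
      a + b = N ∧ b + k ≤ finrank ℚ V ∧ 1 ≤ k ∧ (k = 1 → M = ⊥) ∧ (k = 2 → L = M) := by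
  induction n using Nat.strong_induction_on with
  | _ n ih =>
  intro V _ _ _ _ Q _ hn hQ ρ hint N hN
  obtain ⟨G₁, L₀, hG₁, hL0, hL, hcomm, hmin⟩ := hSTR ℚ V Q hQ ρ
  obtain ⟨lam, hlam⟩ := STP_lam ρ G₁ L₀ hL
  obtain ⟨mu, hmu⟩ := STP_mu ρ G₁ L₀ hL
  have h1 : Hi N G₁ := by
    have h := (hHA Q).2.2.1 N ⊤ G₁
      (by rw [Subgroup.relIndex_top_right]; exact hG₁.index_ne_zero) hN
    rwa [inf_top_eq] at h
  have h2 : Hi N (⊤ : Subgroup G₁) := by
    have h := (hHA Q).2.2.2.2.2 G₁ G₁.subtype (Subgroup.subtype_injective _) N G₁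
      (le_of_eq (Subgroup.range_subtype _).symm) h1
    have h3 : G₁.comap G₁.subtype = ⊤ := by
      rw [eq_top_iff]
      intro x _
      exact x.2
    rwa [h3] at h
  obtain ⟨a', c, hac, ha', hc⟩ := hHB G₁ (Module.End ℚ L₀)ˣ lam.toHomUnits N ⊤ h2
  have hLnt : Nontrivial L₀ := Submodule.nontrivial_iff_ne_bot.2 hL0
  -- the torus part
  have hcL : c + 1 ≤ finrank ℚ L₀ := by
    have hc' := STP_range hHA lam.toHomUnits c _ hc
    have h3 := hTOR ℚ 1 inferInstance (by rw [finrank_self]) L₀ lam.toHomUnits.range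
      ((Units.coeHom (Module.End ℚ L₀)).comp lam.toHomUnits.range.subtype) ?_ ?_ ?_ ?_ c hc'
    · rwa [one_mul] at h3
    · intro u v huv
      apply Subtype.ext
      exact Units.ext huv
    · rintro ⟨_, g, rfl⟩ ⟨_, h, rfl⟩
      show lam g * lam h = lam h * lam g
      rw [← map_mul, ← map_mul]
      ext w
      rw [hlam, hlam]
      exact hcomm g g.2 h h.2 w w.2
    · intro W hW
      have hW' : ∀ g ∈ G₁, ∀ w ∈ W.map L₀.subtype, ρ g w ∈ W.map L₀.subtype := by
        rintro g hg _ ⟨w, hw, rfl⟩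
        refine ⟨lam ⟨g, hg⟩ w, hW ⟨lam.toHomUnits ⟨g, hg⟩, ⟨g, hg⟩, rfl⟩ w hw, ?_⟩
        exact hlam ⟨g, hg⟩ w
      rcases hmin (W.map L₀.subtype) (Submodule.map_subtype_le L₀ W) hW' with h | h
      · left
        rw [eq_bot_iff]
        intro w hw
        have hw2 : (w : V) ∈ W.map L₀.subtype := ⟨w, hw, rfl⟩
        rw [h, Submodule.mem_bot] at hw2
        exact (Submodule.mem_bot ℚ).2 (Subtype.ext hw2)
      · right
        rw [eq_top_iff]
        intro w _
        have hw : (w : V) ∈ W.map L₀.subtype := by rw [h]; exact w.2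
        obtain ⟨w', hw', hww'⟩ := hw
        have : w' = w := Subtype.ext hww'
        rwa [← this]
    · rintro ⟨_, g, rfl⟩
      exact STP_int_sub L₀.subtype (Submodule.subtype_injective L₀) (lam g) (ρ g)
        (fun v => hlam g v) (hint g)
  have hker : ∀ g : G₁, g ∈ lam.toHomUnits.ker → ∀ w ∈ L₀, ρ (g : Q) w = w := by
    intro g hg w hw
    have hy2 : lam.toHomUnits g = 1 := MonoidHom.mem_ker.1 hg
    have hy4 : lam g = 1 := congrArg Units.val hy2
    have h5 := hlam g ⟨w, hw⟩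
    rw [hy4] at h5
    exact h5.symm
  rw [top_inf_eq] at ha'
  by_cases htop : L₀ = ⊤
  · refine ⟨(lam.toHomUnits.ker).map G₁.subtype, a', c, 1, ⊤, ⊥, ?_, ?_, ?_, ?_, ?_, ?_, hac, ?_,
      le_refl 1, fun _ => rfl, fun h => absurd h (by norm_num)⟩
    · rintro _ ⟨g, hg, rfl⟩
      have h3 : ρ (g : Q) - 1 = 0 := by
        ext v
        have h4 := hker g hg v (by rw [htop]; exact Submodule.mem_top)
        rw [LinearMap.sub_apply, h4]
        exact sub_self v
      show IsNilpotent (ρ (g : Q) - 1)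
      rw [h3]
      exact IsNilpotent.zero
    · rintro _ ⟨g, hg, rfl⟩ w _
      exact hker g hg w (by rw [htop]; exact Submodule.mem_top)
    · rintro _ ⟨g, hg, rfl⟩ v
      have h4 : ρ (g : Q) v = v := hker g hg v (by rw [htop]; exact Submodule.mem_top)
      show ρ (g : Q) v - v ∈ (⊥ : Submodule ℚ V)
      rw [h4, sub_self]
      exact Submodule.zero_mem _
    · exact top_ne_bot
    · exact bot_ne_top
    · exact FLG_map G₁.subtype (Subgroup.subtype_injective _) a' _ ha'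
    · rw [htop, finrank_top] at hcL
      exact hcL
  · have hnt : Nontrivial (V ⧸ L₀) := Submodule.Quotient.nontrivial_iff.2 htop
    have hdim : finrank ℚ (V ⧸ L₀) + finrank ℚ L₀ = finrank ℚ V := Submodule.finrank_quotient_add_finrank L₀
    have hpos : 0 < finrank ℚ L₀ := finrank_pos
    have hsolv : Group.IsSolvable (lam.toHomUnits.ker) := by
      have : Group.IsSolvable G₁ := inferInstance
      infer_instance
    have hHi : Hi a' (⊤ : Subgroup lam.toHomUnits.ker) := by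
      have h := (hHA G₁).2.2.2.2.2 lam.toHomUnits.ker lam.toHomUnits.ker.subtype
        (Subgroup.subtype_injective _) a' lam.toHomUnits.ker
        (le_of_eq (Subgroup.range_subtype _).symm) ha'
      have h3 : lam.toHomUnits.ker.comap lam.toHomUnits.ker.subtype = ⊤ := by
        rw [eq_top_iff]
        intro x _
        exact x.2
      rwa [h3] at h
    obtain ⟨U', a, b', k', L', M', hU1, hU2, hU3, hL', hM', hHia, hab, hbk, hk1, hkM, hkL⟩ :=
      ih (finrank ℚ (V ⧸ L₀)) (by omega) (V ⧸ L₀) lam.toHomUnits.ker rfl hsolv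
        (mu.comp lam.toHomUnits.ker.subtype)
        (fun g => STP_int_quot L₀.mkQ (Submodule.mkQ_surjective L₀) (ρ ((g : G₁) : Q)) (mu g)
          (fun v => (hmu g v).symm) (hint _)) a' hHi
    refine ⟨(U'.map lam.toHomUnits.ker.subtype).map G₁.subtype, a, b' + c, k' + 1, L₀,
      M'.comap L₀.mkQ, ?_, ?_, ?_, hL0, ?_, ?_, by omega, by omega, by omega, fun h => by omega,
      fun h => ?_⟩
    · rintro _ ⟨_, ⟨g, hg, rfl⟩, rfl⟩
      obtain ⟨m, hm⟩ := hU1 g hg
      refine ⟨m + 1, ?_⟩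
      ext v
      have h3 : L₀.mkQ (((ρ ((g : G₁) : Q) - 1) ^ m) v) = ((mu g - 1) ^ m) (L₀.mkQ v) :=
        STP_pow L₀.mkQ (ρ ((g : G₁) : Q) - 1) (mu g - 1) (fun v => by
          rw [LinearMap.sub_apply, LinearMap.sub_apply, map_sub, hmu]
          rfl) m v
      have h4 : ((mu g - 1) ^ m) (L₀.mkQ v) = 0 := by
        have h5 : (mu g - 1) ^ m = 0 := hm
        rw [h5]
        rfl
      rw [h4, Submodule.mkQ_apply, Submodule.Quotient.mk_eq_zero] at h3
      have h6 := hker g g.2 _ h3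
      show ((ρ ((g : G₁) : Q) - 1) ^ (m + 1)) v = 0
      rw [pow_succ', Module.End.mul_apply, LinearMap.sub_apply, h6]
      exact sub_self _
    · rintro _ ⟨_, ⟨g, hg, rfl⟩, rfl⟩ w hw
      exact hker g g.2 w hw
    · rintro _ ⟨_, ⟨g, hg, rfl⟩, rfl⟩ v
      rw [Submodule.mem_comap, map_sub]
      have h3 := hU3 g hg (L₀.mkQ v)
      have h4 := hmu g v
      show L₀.mkQ (ρ ((g : G₁) : Q) v) - L₀.mkQ v ∈ M'
      rw [← h4]
      exact h3
    · intro h
      apply hM'
      rw [eq_top_iff]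
      intro x _
      obtain ⟨v, rfl⟩ := Submodule.mkQ_surjective L₀ x
      have h3 : v ∈ M'.comap L₀.mkQ := by
        rw [h]
        exact Submodule.mem_top
      exact h3
    · exact FLG_map G₁.subtype (Subgroup.subtype_injective _) a _
        (FLG_map lam.toHomUnits.ker.subtype (Subgroup.subtype_injective _) a _ hHia)
    · rw [hkM (by omega)]
      exact (Submodule.ker_mkQ L₀).symm

theorem FLG (hHA : HA_stmt) (hHB : HB_stmt) (hSTR : STR_stmt) (hTOR : TOR_stmt) : FLG_stmt := by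
  intro V _ _ _ _ Q _ hQ ρ hint N hN
  exact FLG_aux hHA hHB hSTR hTOR (finrank ℚ V) V Q rfl hQ ρ hint N hN

end Pool.Agent.NH
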